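import Pool.Agent.Q312.MM.Ind

/-!
# Indiscernible subsets of arbitrary uncountable sets of complex numbers

We consider the relations between complex numbers which are definable from zero sets of entire functions (in particular
from the complex field with exponentiation) by countable Boolean combinations, preimages under entire maps, quantifiers
guarded by equations of finite order, measure quantifiers, and the unguarded quantifiers of Magidor and Malitz. It is
known (starting results of this problem for smaller families, and `MagidorMalitzQuantifiers`) that the sets of complex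
numbers of this family are countable or cocountable, as predicted by the quasiminimality conjecture.

Here we consider relations between several numbers, and prove a property of the structure of all complex numbers with
countably many such relations, with parameters, which resembles stability: every uncountable set `H₀` of complex numbers,
of any cardinality `κ`, contains a set `H` of cardinality `κ` which is indiscernible: the truth value of each of the relations
`R_i(s_i, x_1, …, x_n)` is the same for all pairwise different `x_1, …, x_n` in `H`. Moreover it does not depend on `H₀`.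

Consequently there is no order in the structure: none of the relations of the family linearly orders an uncountable set of
complex numbers.

Proof. A relation `R` of `n` numbers in the family satisfies a zero-one law: it is true for almost all or false for almost all
`n`-tuples, since this holds for `n = 1` and by induction, with the quantifier for uncountably many numbers. By Fubini's theorem
the truth value does not depend on the order of the arguments. A maximal subset `H` of `H₀` such that all its finite subsets can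
be extended by `n - |A|` successive generic elements to sets of `n` elements for which all arrangements have the generic
truth value has the cardinality of `H₀`, since each finite subset excludes only countably many further elements.
-/

set_option autoImplicit false

namespace Pool.Agent.Results.MP_a12702_lc.IndiscernibleSets

open Set Cardinal MeasureTheory Pool.Agent.TH735.QM Pool.Agent.TH735.FO
open scoped ENNReal

/-- The set `H` of complex numbers is homogeneous for the relations `X 0, X 1, X 2, …` at `s`: for all `n` and all pairwise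
different `x_1, …, x_n` in `H`, the point `(s, x_1, …, x_n)` is in `X n`. -/
def Homogeneous {m : ℕ} (X : (n : ℕ) → Set (Fin (m + n) → ℂ)) (s : Fin m → ℂ) (H : Set ℂ) : Prop :=
  ∀ (n : ℕ) (x : Fin n → ℂ), Function.Injective x → (∀ i, x i ∈ H) → (Fin.append s x : Fin (m + n) → ℂ) ∈ X n

/-- Closure conditions on families `𝒟 m` of subsets of `ℂ^m`. -/
structure Closed (𝒟 : (m : ℕ) → Set (Set (Fin m → ℂ))) : Prop where
  /-- zero sets of arbitrary entire functions -/
  zero : ∀ (m : ℕ) (f : (Fin m → ℂ) → ℂ), AnalyticOnNhd ℂ f univ → {s | f s = 0} ∈ 𝒟 m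
  /-- complements -/
  compl : ∀ (m : ℕ) (X : Set (Fin m → ℂ)), X ∈ 𝒟 m → Xᶜ ∈ 𝒟 m
  /-- countable unions -/
  iUnion : ∀ (m : ℕ) (X : ℕ → Set (Fin m → ℂ)), (∀ i, X i ∈ 𝒟 m) → (⋃ i, X i) ∈ 𝒟 m
  /-- preimages under entire maps -/
  preimage : ∀ (m n : ℕ) (h : (Fin n → ℂ) → (Fin m → ℂ)), AnalyticOnNhd ℂ h univ →
    ∀ X ∈ 𝒟 m, h ⁻¹' X ∈ 𝒟 n
  /-- the guarded quantifier: there are at least `κ` numbers `x` such that ..., where the matrix is
  arbitrary at the zeros `x` of `F(s, ·)` (`F` entire, of finite order in `x` locally uniformly in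
  `s`), and is a countable Boolean combination of conditions `s ∈ E` and `x ∈ D` at the other `x` -/
  guard : ∀ (m : ℕ) (F : (Fin m → ℂ) → ℂ → ℂ),
    AnalyticOnNhd ℂ (fun p : (Fin m → ℂ) × ℂ => F p.1 p.2) univ → FiniteOrder F →
    ∀ X ∈ 𝒟 (m + 1), ∀ R : Set ((Fin m → ℂ) × (Fin 1 → ℂ)),
      Rect (· ∈ 𝒟 m) (· ∈ 𝒟 1) R → ∀ κ : Cardinal.{0},
    {s | κ ≤ #({x : ℂ | (IsZero F s x ∧
      (Fin.snoc (α := fun _ => ℂ) s x : Fin (m + 1) → ℂ) ∈ X) ∨
      (¬ IsZero F s x ∧ (s, fun _ => x) ∈ R)} : Set ℂ)} ∈ 𝒟 m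
  /-- counting quantifiers over one unknown `z`: at the points algebraic over `s` the matrix is
  arbitrary, elsewhere it consists of one admissible equation and a countable Boolean combination
  (different on the two sides of the equation) of conditions `s ∈ E` and `z ∈ D` -/
  count : ∀ (m d : ℕ) (a : Fin (d + 1) → (Fin m → ℂ) → ℂ),
    (∀ j, AnalyticOnNhd ℂ (a j) univ) → ∀ X ∈ 𝒟 (m + 1),
    ∀ F : (Fin m → ℂ) → (Fin 1 → ℂ) → ℂ, Adm m 1 F →
    ∀ R₁ R₀ : Set ((Fin m → ℂ) × (Fin 1 → ℂ)), Rect (· ∈ 𝒟 m) (· ∈ 𝒟 1) R₁ →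
      Rect (· ∈ 𝒟 m) (· ∈ 𝒟 1) R₀ → ∀ κ : Cardinal.{0},
    {s | κ ≤ #({z : ℂ | (IsAlg a s z ∧
      (Fin.snoc (α := fun _ => ℂ) s z : Fin (m + 1) → ℂ) ∈ X) ∨
      (¬ IsAlg a s z ∧ ((F s (fun _ => z) = 0 ∧ (s, fun _ => z) ∈ R₁) ∨
        (F s (fun _ => z) ≠ 0 ∧ (s, fun _ => z) ∈ R₀)))} : Set ℂ)} ∈ 𝒟 m
  /-- the same with an arbitrary Boolean combination of finitely many equations which are
  polynomial in `z` and in the exponential of one entire function `h(s, z)` -/
  system : ∀ (m d e n : ℕ) (a : Fin (d + 1) → (Fin m → ℂ) → ℂ),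
    (∀ j, AnalyticOnNhd ℂ (a j) univ) → ∀ X ∈ 𝒟 (m + 1),
    ∀ c : Fin n → Fin (e + 1) → Fin (e + 1) → (Fin m → ℂ) → ℂ,
    (∀ j i k, AnalyticOnNhd ℂ (c j i k) univ) → ∀ h : (Fin m → ℂ) → ℂ → ℂ,
    AnalyticOnNhd ℂ (fun p : (Fin m → ℂ) × ℂ => h p.1 p.2) univ →
    ∀ R : Set (Fin n) → Set ((Fin m → ℂ) × (Fin 1 → ℂ)),
      (∀ Z, Rect (· ∈ 𝒟 m) (· ∈ 𝒟 1) (R Z)) → ∀ κ : Cardinal.{0},
    {s | κ ≤ #({z : ℂ | (IsAlg a s z ∧
      (Fin.snoc (α := fun _ => ℂ) s z : Fin (m + 1) → ℂ) ∈ X) ∨
      (¬ IsAlg a s z ∧ (s, fun _ => z) ∈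
        R {j | ∑ i, ∑ k, c j i k s * z ^ (i : ℕ) * Complex.exp (h s z) ^ (k : ℕ) = 0})} :
        Set ℂ)} ∈ 𝒟 m
  /-- one admissible equation in `n` unknowns -/
  ex : ∀ (m n : ℕ) (F : (Fin m → ℂ) → (Fin n → ℂ) → ℂ), Adm m n F →
    ∀ N : (Fin n → ℂ) → ℂ, AnalyticOnNhd ℂ N univ → {s | ∃ x, N x ≠ 0 ∧ F s x = 0} ∈ 𝒟 m
  /-- the unguarded measure quantifier: the measure of the set of all `x` with `X(s, x)` is larger
  than `r`, for an arbitrary set `X` of the family -/
  measure : ∀ (m : ℕ), ∀ X ∈ 𝒟 (m + 1), ∀ (μ : Measure ℂ) [SFinite μ] (r : ℝ≥0∞),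
    {s | r < μ {x : ℂ | (Fin.snoc (α := fun _ => ℂ) s x : Fin (m + 1) → ℂ) ∈ X}} ∈ 𝒟 m
  /-- the unguarded quantifiers of Magidor and Malitz: there is a set of at least `κ` numbers which is
  homogeneous for arbitrary relations of the family, `κ` an uncountable cardinal -/
  homogeneous : ∀ (m : ℕ) (X : (n : ℕ) → Set (Fin (m + n) → ℂ)), (∀ n, X n ∈ 𝒟 (m + n)) →
    ∀ κ : Cardinal.{0}, ℵ₀ < κ → {s | ∃ H : Set ℂ, κ ≤ #H ∧ Homogeneous X s H} ∈ 𝒟 m

theorem closed_CQ : Closed (fun m => {X | CQ m X ∧ MeasurableSet X}) where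
  zero := fun _ _ hf => ⟨CQ.zero hf,
    (isClosed_eq (continuousOn_univ.1 hf.continuousOn) continuous_const).measurableSet⟩
  compl := fun _ _ hX => ⟨CQ.compl hX.1, hX.2.compl⟩
  iUnion := fun _ _ hX => ⟨CQ.iUnion fun i => (hX i).1, MeasurableSet.iUnion fun i => (hX i).2⟩
  preimage := fun _ _ _ hh _ hX => ⟨CQ.preimage hX.1 hh,
    (continuousOn_univ.1 hh.continuousOn).measurable hX.2⟩
  guard := by
    intro m F hF hord X hX R hR κ
    exact ⟨CQ.guard hF hord hX.1 (fun E hE => hE.1) (fun D hD => hD.1) hR κ,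
      Pool.Agent.Y566.GQ.meas_guard hF hX.2 (fun E hE => hE.2) (fun D hD => hD) hR κ⟩
  count := by
    intro m d a ha X hX F hF R₁ R₀ hR₁ hR₀ κ
    exact ⟨CQ.count_one ha hX.1 hF (fun E hE => hE.1) (fun D hD => hD.1) hR₀ hR₁ κ,
      Pool.Agent.Y566.GQ.meas_count_one ha hX.2 hF (fun E hE => hE.2) (fun D hD => hD) hR₀ hR₁ κ⟩
  system := by
    intro m d e n a ha X hX c hc h hh R hR κ
    exact ⟨CQ.count_system ha hX.1 hc hh (fun E hE => hE.1) (fun D hD => hD.1) hR κ,
      Pool.Agent.Y566.GQ.meas_system ha hX.2 hc hh (fun E hE => hE.2) (fun D hD => hD) hR κ⟩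
  ex := fun _ _ _ hF _ hN => ⟨Pool.Agent.Y566.GQ.CQ_ex hF hN, Pool.Agent.Y566.GQ.meas_ex hF hN⟩
  measure := fun _ _ hX μ _ r => ⟨Pool.Agent.Y566.GQ.CQ_measure hX.1 hX.2 μ r,
    Pool.Agent.Y566.GQ.meas_measure hX.2 μ r⟩
  homogeneous := fun _ _ hX _ hκ => Pool.Agent.Q312.MM.CQ_hom (fun n => (hX n).1) (fun n => (hX n).2) hκ

/-- Let `R i`, `i = 0, 1, 2, …`, be relations of the least closed family, between `m i` parameters and `n i` further numbers, and
let `s i` be parameters.

(1) There are truth values `ε i` such that every uncountable set `H₀` of complex numbers contains a set `H` of the same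
cardinality such that for all `i` and all pairwise different `x_1, …, x_(n i)` in `H` the relation `R i` holds for `s i` and
`x_1, …, x_(n i)` if and only if `ε i`.

(2) No relation `R` of the least closed family linearly orders an uncountable set `H₀`: it is not true that for all different
`x`, `y` in `H₀` exactly one of `R(s, x, y)`, `R(s, y, x)` holds. -/
theorem result :
    (∀ (m n : ℕ → ℕ) (R : (i : ℕ) → Set (Fin (m i + n i) → ℂ)),
      (∀ 𝒟 : (m : ℕ) → Set (Set (Fin m → ℂ)), Closed 𝒟 → ∀ i, R i ∈ 𝒟 (m i + n i)) →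
      ∀ s : (i : ℕ) → Fin (m i) → ℂ, ∃ ε : ℕ → Prop, ∀ H₀ : Set ℂ, ¬ H₀.Countable → ∃ H : Set ℂ, H ⊆ H₀ ∧ #H = #H₀ ∧
        ∀ (i : ℕ) (x : Fin (n i) → ℂ), Function.Injective x → (∀ j, x j ∈ H) →
          ((Fin.append (s i) x : Fin (m i + n i) → ℂ) ∈ R i ↔ ε i)) ∧
    ∀ (m : ℕ) (R : Set (Fin (m + 2) → ℂ)), (∀ 𝒟 : (m : ℕ) → Set (Set (Fin m → ℂ)), Closed 𝒟 → R ∈ 𝒟 (m + 2)) →
      ∀ (s : Fin m → ℂ) (H₀ : Set ℂ), ¬ H₀.Countable →
        ¬ ∀ x ∈ H₀, ∀ y ∈ H₀, x ≠ y → ((Fin.append s ![x, y] : Fin (m + 2) → ℂ) ∈ R ↔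
          (Fin.append s ![y, x] : Fin (m + 2) → ℂ) ∉ R) := by
  refine ⟨?_, ?_⟩
  · intro m n R hR s
    have h1 : ∀ i, CQ (m i + n i) (R i) ∧ MeasurableSet (R i) := fun i => hR _ closed_CQ i
    exact Pool.Agent.Q312.MM.indiscernible (fun i => (h1 i).1) (fun i => (h1 i).2) s
  · intro m R hR s H₀ hH₀
    have h1 : CQ (m + 2) R ∧ MeasurableSet R := hR _ closed_CQ
    exact Pool.Agent.Q312.MM.no_order h1.1 h1.2 s hH₀

end Pool.Agent.Results.MP_a12702_lc.IndiscernibleSets
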