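import Pool.Agent.Q312.MM.Ext

/-!
# Quasiminimality of the complex numbers for formulas with the quantifiers of Magidor and Malitz

The starting result `GenericQuantifiers` treats the sets which are definable from zero sets of entire functions by
countable Boolean combinations, preimages under entire maps, quantifiers guarded by equations of finite order, and
unguarded quantifiers `Q x X(s, x)` (for uncountably many `x`) and measure quantifiers with an arbitrary matrix.

Here we add the unguarded second order quantifiers of Magidor and Malitz, with an arbitrary matrix: there is an uncountable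
set `H` of complex numbers (or: a set `H` with at least `κ` elements, `κ` any uncountable cardinal) such that `X(s, x_1, …, x_n)`
holds for all pairwise different `x_1, …, x_n` in `H`; moreover the set `H` may be required to be homogeneous for infinitely
many relations `X_n(s, x_1, …, x_n)`, `n = 0, 1, 2, …`, at the same time. So the sets include those which are definable in the
exponential field by formulas of the infinitary Magidor-Malitz logic `L_{ω₁, ω}(Q, Q², Q³, …)`, with parameters, whose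
first-order quantifiers are guarded and whose quantifiers `Q^n` are arbitrary. The case of one relation with `n = 1` is
the quantifier `Q`.

The sets of the least family are Borel sets, and their traces on analytic curves are countable or cocountable. If there is
an uncountable homogeneous set for relations of the family, then there is one with as many elements as the continuum.

Proof. Let `It_r(s, A)` be the condition that, for uncountably many `x_1`, for uncountably many `x_2`, …, for uncountably many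
`x_r`, all arrangements of the set `A ∪ {x_1, …, x_r}` with `n` elements are in `X_n`. An uncountable homogeneous set `H`
gives `It_n(s, ∅)`, since all elements of `H` can be used. Conversely, assume this for all `n`, and let `H` be a maximal set with
`It_{n - |A|}(s, A)` for all `n` and all finite subsets `A` of `H` with at most `n` elements. For each `A` with less than `n`
elements the set of the `x` which cannot be added is countable, since it is not cocountable. If `H` had less elements than the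
continuum then there would be an `x` which can be added for all `A` and `n`. The conditions `It_n(s, ∅)` are obtained from
the `X_n` by finite intersections and the quantifier `Q`.
-/

set_option autoImplicit false

namespace Pool.Agent.Results.MP_a12702_lc.MagidorMalitzQuantifiers

open Set Cardinal MeasureTheory Pool.Agent.TH735.QM Pool.Agent.TH735.FO
open scoped ENNReal

/-- The set `H` of complex numbers is homogeneous for the relations `X 0, X 1, X 2, …` at `s`: for all `n` and all pairwise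
different `x_1, …, x_n` in `H`, the point `(s, x_1, …, x_n)` is in `X n`. -/
def Homogeneous {m : ℕ} (X : (n : ℕ) → Set (Fin (m + n) → ℂ)) (s : Fin m → ℂ) (H : Set ℂ) : Prop :=
  ∀ (n : ℕ) (x : Fin n → ℂ), Function.Injective x → (∀ i, x i ∈ H) → (Fin.append s x : Fin (m + n) → ℂ) ∈ X n

/-- Closure conditions on families `𝒟 m` of subsets of `ℂ^m`. -/
structure Closed (𝒟 : (m : ℕ) → Set (Set (Fin m → ℂ))) : Prop where
  /-- zero sets of arbitrary entire functions -/
  zero : ∀ (m : ℕ) (f : (Fin m → ℂ) → ℂ), AnalyticOnNhd ℂ f univ → {s | f s = 0} ∈ 𝒟 m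
  /-- complements -/
  compl : ∀ (m : ℕ) (X : Set (Fin m → ℂ)), X ∈ 𝒟 m → Xᶜ ∈ 𝒟 m
  /-- countable unions -/
  iUnion : ∀ (m : ℕ) (X : ℕ → Set (Fin m → ℂ)), (∀ i, X i ∈ 𝒟 m) → (⋃ i, X i) ∈ 𝒟 m
  /-- preimages under entire maps -/
  preimage : ∀ (m n : ℕ) (h : (Fin n → ℂ) → (Fin m → ℂ)), AnalyticOnNhd ℂ h univ →
    ∀ X ∈ 𝒟 m, h ⁻¹' X ∈ 𝒟 n
  /-- the guarded quantifier: there are at least `κ` numbers `x` such that ..., where the matrix is
  arbitrary at the zeros `x` of `F(s, ·)` (`F` entire, of finite order in `x` locally uniformly in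
  `s`), and is a countable Boolean combination of conditions `s ∈ E` and `x ∈ D` at the other `x` -/
  guard : ∀ (m : ℕ) (F : (Fin m → ℂ) → ℂ → ℂ),
    AnalyticOnNhd ℂ (fun p : (Fin m → ℂ) × ℂ => F p.1 p.2) univ → FiniteOrder F →
    ∀ X ∈ 𝒟 (m + 1), ∀ R : Set ((Fin m → ℂ) × (Fin 1 → ℂ)),
      Rect (· ∈ 𝒟 m) (· ∈ 𝒟 1) R → ∀ κ : Cardinal.{0},
    {s | κ ≤ #({x : ℂ | (IsZero F s x ∧
      (Fin.snoc (α := fun _ => ℂ) s x : Fin (m + 1) → ℂ) ∈ X) ∨
      (¬ IsZero F s x ∧ (s, fun _ => x) ∈ R)} : Set ℂ)} ∈ 𝒟 m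
  /-- counting quantifiers over one unknown `z`: at the points algebraic over `s` the matrix is
  arbitrary, elsewhere it consists of one admissible equation and a countable Boolean combination
  (different on the two sides of the equation) of conditions `s ∈ E` and `z ∈ D` -/
  count : ∀ (m d : ℕ) (a : Fin (d + 1) → (Fin m → ℂ) → ℂ),
    (∀ j, AnalyticOnNhd ℂ (a j) univ) → ∀ X ∈ 𝒟 (m + 1),
    ∀ F : (Fin m → ℂ) → (Fin 1 → ℂ) → ℂ, Adm m 1 F →
    ∀ R₁ R₀ : Set ((Fin m → ℂ) × (Fin 1 → ℂ)), Rect (· ∈ 𝒟 m) (· ∈ 𝒟 1) R₁ →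
      Rect (· ∈ 𝒟 m) (· ∈ 𝒟 1) R₀ → ∀ κ : Cardinal.{0},
    {s | κ ≤ #({z : ℂ | (IsAlg a s z ∧
      (Fin.snoc (α := fun _ => ℂ) s z : Fin (m + 1) → ℂ) ∈ X) ∨
      (¬ IsAlg a s z ∧ ((F s (fun _ => z) = 0 ∧ (s, fun _ => z) ∈ R₁) ∨
        (F s (fun _ => z) ≠ 0 ∧ (s, fun _ => z) ∈ R₀)))} : Set ℂ)} ∈ 𝒟 m
  /-- the same with an arbitrary Boolean combination of finitely many equations which are
  polynomial in `z` and in the exponential of one entire function `h(s, z)` -/
  system : ∀ (m d e n : ℕ) (a : Fin (d + 1) → (Fin m → ℂ) → ℂ),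
    (∀ j, AnalyticOnNhd ℂ (a j) univ) → ∀ X ∈ 𝒟 (m + 1),
    ∀ c : Fin n → Fin (e + 1) → Fin (e + 1) → (Fin m → ℂ) → ℂ,
    (∀ j i k, AnalyticOnNhd ℂ (c j i k) univ) → ∀ h : (Fin m → ℂ) → ℂ → ℂ,
    AnalyticOnNhd ℂ (fun p : (Fin m → ℂ) × ℂ => h p.1 p.2) univ →
    ∀ R : Set (Fin n) → Set ((Fin m → ℂ) × (Fin 1 → ℂ)),
      (∀ Z, Rect (· ∈ 𝒟 m) (· ∈ 𝒟 1) (R Z)) → ∀ κ : Cardinal.{0},
    {s | κ ≤ #({z : ℂ | (IsAlg a s z ∧
      (Fin.snoc (α := fun _ => ℂ) s z : Fin (m + 1) → ℂ) ∈ X) ∨
      (¬ IsAlg a s z ∧ (s, fun _ => z) ∈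
        R {j | ∑ i, ∑ k, c j i k s * z ^ (i : ℕ) * Complex.exp (h s z) ^ (k : ℕ) = 0})} :
        Set ℂ)} ∈ 𝒟 m
  /-- one admissible equation in `n` unknowns -/
  ex : ∀ (m n : ℕ) (F : (Fin m → ℂ) → (Fin n → ℂ) → ℂ), Adm m n F →
    ∀ N : (Fin n → ℂ) → ℂ, AnalyticOnNhd ℂ N univ → {s | ∃ x, N x ≠ 0 ∧ F s x = 0} ∈ 𝒟 m
  /-- the unguarded measure quantifier: the measure of the set of all `x` with `X(s, x)` is larger
  than `r`, for an arbitrary set `X` of the family -/
  measure : ∀ (m : ℕ), ∀ X ∈ 𝒟 (m + 1), ∀ (μ : Measure ℂ) [SFinite μ] (r : ℝ≥0∞),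
    {s | r < μ {x : ℂ | (Fin.snoc (α := fun _ => ℂ) s x : Fin (m + 1) → ℂ) ∈ X}} ∈ 𝒟 m
  /-- the unguarded quantifiers of Magidor and Malitz: there is a set of at least `κ` numbers which is
  homogeneous for arbitrary relations of the family, `κ` an uncountable cardinal -/
  homogeneous : ∀ (m : ℕ) (X : (n : ℕ) → Set (Fin (m + n) → ℂ)), (∀ n, X n ∈ 𝒟 (m + n)) →
    ∀ κ : Cardinal.{0}, ℵ₀ < κ → {s | ∃ H : Set ℂ, κ ≤ #H ∧ Homogeneous X s H} ∈ 𝒟 m

/-- The quantifier `there are at least κ numbers x with X(s, x)`, `κ` uncountable, is a special case of the quantifier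
`homogeneous`. -/
theorem Closed.generic {𝒟 : (m : ℕ) → Set (Set (Fin m → ℂ))} (h : Closed 𝒟) (m : ℕ) (X : Set (Fin (m + 1) → ℂ))
    (hX : X ∈ 𝒟 (m + 1)) (κ : Cardinal.{0}) (hκ : ℵ₀ < κ) :
    {s | κ ≤ #({x : ℂ | (Fin.snoc (α := fun _ => ℂ) s x : Fin (m + 1) → ℂ) ∈ X} : Set ℂ)} ∈ 𝒟 m := by
  have huniv : ∀ n, (Set.univ : Set (Fin n → ℂ)) ∈ 𝒟 n := by
    intro n
    have h1 := h.zero n (fun _ => 0) analyticOnNhd_const
    simpa using h1
  let Y : (n : ℕ) → Set (Fin (m + n) → ℂ) := fun n => match n with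
    | 0 => Set.univ
    | 1 => X
    | _ + 2 => Set.univ
  have hY : ∀ n, Y n ∈ 𝒟 (m + n) := by
    intro n
    match n with
    | 0 => exact huniv _
    | 1 => exact hX
    | n + 2 => exact huniv _
  have h2 := h.homogeneous m Y hY κ hκ
  have h3 : {s | κ ≤ #({x : ℂ | (Fin.snoc (α := fun _ => ℂ) s x : Fin (m + 1) → ℂ) ∈ X} : Set ℂ)} =
      {s | ∃ H : Set ℂ, κ ≤ #H ∧ Homogeneous Y s H} := by
    have happ : ∀ (s : Fin m → ℂ) (x : Fin 1 → ℂ), (Fin.append s x : Fin (m + 1) → ℂ) =
        Fin.snoc (α := fun _ => ℂ) s (x 0) := by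
      intro s x
      have h4 : x = Fin.snoc (α := fun _ => ℂ) (Fin.elim0 : Fin 0 → ℂ) (x 0) := by
        funext i
        have : i = Fin.last 0 := Subsingleton.elim _ _
        subst this
        rw [Fin.snoc_last]
        rfl
      rw [h4, Fin.append_snoc, Pool.Agent.Q312.MM.append_zero]
      have h5 : (Fin.snoc (α := fun _ => ℂ) (Fin.elim0 : Fin 0 → ℂ) (x 0) : Fin 1 → ℂ) 0 = x 0 := by
        rw [← h4]
      rw [h5]
    ext s
    simp only [Set.mem_ofPred_eq]
    constructor
    · intro h4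
      refine ⟨_, h4, fun n x _ hx => ?_⟩
      match n with
      | 0 => exact Set.mem_univ _
      | 1 =>
        show (Fin.append s x : Fin (m + 1) → ℂ) ∈ X
        rw [happ]
        exact hx 0
      | n + 2 => exact Set.mem_univ _
    · rintro ⟨H, h4, h5⟩
      refine h4.trans (mk_le_mk_of_subset fun x hx => ?_)
      have h6 := h5 1 (fun _ => x) (Function.injective_of_subsingleton _) (fun _ => hx)
      have h7 : (Fin.append s (fun _ : Fin 1 => x) : Fin (m + 1) → ℂ) ∈ X := h6
      rw [happ] at h7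
      exact h7
  rw [h3]
  exact h2

theorem closed_CQ : Closed (fun m => {X | CQ m X ∧ MeasurableSet X}) where
  zero := fun _ _ hf => ⟨CQ.zero hf,
    (isClosed_eq (continuousOn_univ.1 hf.continuousOn) continuous_const).measurableSet⟩
  compl := fun _ _ hX => ⟨CQ.compl hX.1, hX.2.compl⟩
  iUnion := fun _ _ hX => ⟨CQ.iUnion fun i => (hX i).1, MeasurableSet.iUnion fun i => (hX i).2⟩
  preimage := fun _ _ _ hh _ hX => ⟨CQ.preimage hX.1 hh,
    (continuousOn_univ.1 hh.continuousOn).measurable hX.2⟩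
  guard := by
    intro m F hF hord X hX R hR κ
    exact ⟨CQ.guard hF hord hX.1 (fun E hE => hE.1) (fun D hD => hD.1) hR κ,
      Pool.Agent.Y566.GQ.meas_guard hF hX.2 (fun E hE => hE.2) (fun D hD => hD) hR κ⟩
  count := by
    intro m d a ha X hX F hF R₁ R₀ hR₁ hR₀ κ
    exact ⟨CQ.count_one ha hX.1 hF (fun E hE => hE.1) (fun D hD => hD.1) hR₀ hR₁ κ,
      Pool.Agent.Y566.GQ.meas_count_one ha hX.2 hF (fun E hE => hE.2) (fun D hD => hD) hR₀ hR₁ κ⟩
  system := by
    intro m d e n a ha X hX c hc h hh R hR κ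
    exact ⟨CQ.count_system ha hX.1 hc hh (fun E hE => hE.1) (fun D hD => hD.1) hR κ,
      Pool.Agent.Y566.GQ.meas_system ha hX.2 hc hh (fun E hE => hE.2) (fun D hD => hD) hR κ⟩
  ex := fun _ _ _ hF _ hN => ⟨Pool.Agent.Y566.GQ.CQ_ex hF hN, Pool.Agent.Y566.GQ.meas_ex hF hN⟩
  measure := fun _ _ hX μ _ r => ⟨Pool.Agent.Y566.GQ.CQ_measure hX.1 hX.2 μ r,
    Pool.Agent.Y566.GQ.meas_measure hX.2 μ r⟩
  homogeneous := fun _ _ hX _ hκ => Pool.Agent.Q312.MM.CQ_hom (fun n => (hX n).1) (fun n => (hX n).2) hκ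

/-- (1) The sets in the least closed family are Borel sets with countable or cocountable traces on all
analytic curves. (2) In particular every set of complex numbers in the least closed family is countable
or cocountable. (3) If the relations `X 0, X 1, …` belong to the least closed family and there is an uncountable set which is
homogeneous for them at `s`, then there is one with as many elements as the continuum. -/
theorem result :
    (∀ (m : ℕ) (X : Set (Fin m → ℂ)),
      (∀ 𝒟 : (m : ℕ) → Set (Set (Fin m → ℂ)), Closed 𝒟 → X ∈ 𝒟 m) →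
      MeasurableSet X ∧ ∀ U : Set ℂ, IsOpen U → IsPreconnected U →
        ∀ γ : ℂ → (Fin m → ℂ), AnalyticOnNhd ℂ γ U →
          {t | t ∈ U ∧ γ t ∈ X}.Countable ∨ {t | t ∈ U ∧ γ t ∉ X}.Countable) ∧
    (∀ X : Set ℂ,
      (∀ 𝒟 : (m : ℕ) → Set (Set (Fin m → ℂ)), Closed 𝒟 → {v : Fin 1 → ℂ | v 0 ∈ X} ∈ 𝒟 1) →
      X.Countable ∨ Xᶜ.Countable) ∧
    ∀ (m : ℕ) (X : (n : ℕ) → Set (Fin (m + n) → ℂ)),
      (∀ 𝒟 : (m : ℕ) → Set (Set (Fin m → ℂ)), Closed 𝒟 → ∀ n, X n ∈ 𝒟 (m + n)) → ∀ s : Fin m → ℂ,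
      (∃ H : Set ℂ, ¬ H.Countable ∧ Homogeneous X s H) → ∃ H : Set ℂ, #H = 𝔠 ∧ Homogeneous X s H := by
  refine ⟨?_, ?_, ?_⟩
  · intro m X hX
    have h1 : CQ m X ∧ MeasurableSet X := hX _ closed_CQ
    exact ⟨h1.2, h1.1⟩
  · intro X hX
    have h1 : CQ 1 {v : Fin 1 → ℂ | v 0 ∈ X} ∧ MeasurableSet {v : Fin 1 → ℂ | v 0 ∈ X} :=
      hX _ closed_CQ
    exact h1.1.qm
  · intro m X hX s h
    have h1 : ∀ n, CQ (m + n) (X n) ∧ MeasurableSet (X n) := fun n => hX _ closed_CQ n
    exact ((Pool.Agent.Q312.MM.hom_tfae (fun n => (h1 n).1) (fun n => (h1 n).2) s).out 0 1).1 h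

end Pool.Agent.Results.MP_a12702_lc.MagidorMalitzQuantifiers
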