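import Mathlib

/-!
Exact reformulations of the quasiminimality of the complex exponential field in terms of orbits of
automorphisms, invariant subfields, cardinalities and restricted parameter sets.
-/

set_option autoImplicit false

namespace Pool.Agent.Results.MP_a12702_lc.OrbitsAndSubfields

open Set
open Cardinal hiding univ

/-- `σ` is an automorphism of the exponential field `ℂ` which fixes `A` pointwise. -/
def IsAut (A : Set ℂ) (σ : ℂ ≃+* ℂ) : Prop :=
  (∀ z : ℂ, σ (Complex.exp z) = Complex.exp (σ z)) ∧ ∀ a ∈ A, σ a = a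

/-- `X` is invariant under all these automorphisms. -/
def Inv (A : Set ℂ) (X : Set ℂ) : Prop :=
  ∀ σ : ℂ ≃+* ℂ, IsAut A σ → ∀ x : ℂ, x ∈ X ↔ σ x ∈ X

/-- `y` is the image of `x` under such an automorphism. -/
def Conj (A : Set ℂ) (x y : ℂ) : Prop := ∃ σ : ℂ ≃+* ℂ, IsAut A σ ∧ σ x = y

/-- `K` is an invariant algebraically closed subfield which contains `A` and is closed under the
exponential function and under all logarithms. -/
structure Closed (A : Set ℂ) (K : Subfield ℂ) : Prop where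
  sub : A ⊆ K
  inv : Inv A K
  alg : ∀ z : ℂ, IsAlgebraic K z → z ∈ K
  exp : ∀ z ∈ K, Complex.exp z ∈ K
  log : ∀ z : ℂ, Complex.exp z ∈ K → z ∈ K

/-- Small sets of `n`-tuples: for `n = 0` only the empty set; `X` is small if for all but countably
many `x` the set of the `n`-tuples `v` with `(x, v)` in `X` is small. -/
def Small : (n : ℕ) → Set (Fin n → ℂ) → Prop
  | 0, X => X = ∅
  | n + 1, X => {x : ℂ | ¬ Small n {v : Fin n → ℂ | (Fin.cons x v : Fin (n + 1) → ℂ) ∈ X}}.Countable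

/-! ### automorphisms -/

theorem IsAut.refl (A : Set ℂ) : IsAut A (RingEquiv.refl ℂ) := ⟨fun _ => rfl, fun _ _ => rfl⟩

theorem IsAut.symm {A : Set ℂ} {σ : ℂ ≃+* ℂ} (h : IsAut A σ) : IsAut A σ.symm := by
  refine ⟨fun z => ?_, fun a ha => ?_⟩
  · apply σ.injective
    rw [RingEquiv.apply_symm_apply, h.1, RingEquiv.apply_symm_apply]
  · apply σ.injective
    rw [RingEquiv.apply_symm_apply, h.2 a ha]

theorem IsAut.trans {A : Set ℂ} {σ τ : ℂ ≃+* ℂ} (h : IsAut A σ) (h' : IsAut A τ) :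
    IsAut A (σ.trans τ) := by
  refine ⟨fun z => ?_, fun a ha => ?_⟩
  · rw [RingEquiv.trans_apply, RingEquiv.trans_apply, h.1, h'.1]
  · rw [RingEquiv.trans_apply, h.2 a ha, h'.2 a ha]

theorem IsAut.mono {A B : Set ℂ} (hAB : A ⊆ B) {σ : ℂ ≃+* ℂ} (h : IsAut B σ) : IsAut A σ :=
  ⟨h.1, fun a ha => h.2 a (hAB ha)⟩

theorem Conj.refl (A : Set ℂ) (x : ℂ) : Conj A x x := ⟨_, IsAut.refl A, rfl⟩

theorem Conj.symm {A : Set ℂ} {x y : ℂ} : Conj A x y → Conj A y x := by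
  rintro ⟨σ, hσ, rfl⟩
  exact ⟨σ.symm, hσ.symm, σ.symm_apply_apply x⟩

theorem Conj.trans {A : Set ℂ} {x y z : ℂ} : Conj A x y → Conj A y z → Conj A x z := by
  rintro ⟨σ, hσ, rfl⟩ ⟨τ, hτ, rfl⟩
  exact ⟨σ.trans τ, hσ.trans hτ, rfl⟩

/-- the equivalence relation -/
def st (A : Set ℂ) : Setoid ℂ :=
  ⟨Conj A, fun x => Conj.refl A x, fun h => h.symm, fun h h' => h.trans h'⟩

theorem inv_of_class {A : Set ℂ} (P : Quotient (st A) → Prop) :
    Inv A {x | P (Quotient.mk (st A) x)} := by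
  intro σ hσ x
  have h : Quotient.mk (st A) x = Quotient.mk (st A) (σ x) :=
    Quotient.sound (s := st A) ⟨σ, hσ, rfl⟩
  show P _ ↔ P _
  rw [h]

/-! ### the closed subfield -/

theorem lt_image2 {α β γ : Type} {f : α → β → γ} {s : Set α} {t : Set β} (hs : #s < 𝔠)
    (ht : #t < 𝔠) : #(image2 f s t) < 𝔠 := by
  refine lt_of_le_of_lt (?_ : _ ≤ #s * #t) (mul_lt_of_lt aleph0_le_continuum hs ht)
  exact mk_image2_le

theorem main {A F : Set ℂ} {κ : Cardinal.{0}} (hκ : κ ≤ 𝔠) (hF : #F < κ)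
    (h : ∀ x ∉ F, ∀ y ∉ F, Conj A x y) :
    ∃ K : Subfield ℂ, Closed A K ∧ #K < κ ∧ ∀ x ∉ K, ∀ y ∉ K, Conj A x y := by
  obtain ⟨x0, hx0⟩ : ∃ x0, x0 ∉ F := by
    by_contra hc
    push Not at hc
    have h1 : F = univ := eq_univ_of_forall hc
    rw [h1, mk_univ, mk_complex] at hF
    exact absurd hF (not_lt.mpr hκ)
  let K0 : Set ℂ := {x | ¬ Conj A x0 x}
  have hK0F : K0 ⊆ F := fun x hx => by_contra fun h' => hx (h x0 hx0 x h')
  have hK0 : #K0 < κ := lt_of_le_of_lt (mk_le_mk_of_subset hK0F) hF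
  have hK0c : #K0 < 𝔠 := lt_of_lt_of_le hK0 hκ
  have key : ∀ T : Set ℂ, #T < 𝔠 → (∀ σ, IsAut A σ → ∀ x ∈ T, σ x ∈ T) → T ⊆ K0 := by
    intro T hT hinv x hx hc
    have h1 : (univ : Set ℂ) ⊆ K0 ∪ T := by
      intro y _
      by_cases hy : Conj A x0 y
      · obtain ⟨σ, hσ, rfl⟩ := hc.symm.trans hy
        exact Or.inr (hinv σ hσ x hx)
      · exact Or.inl hy
    have h2 : #ℂ ≤ #K0 + #T := by
      rw [← mk_univ]
      exact (mk_le_mk_of_subset h1).trans (mk_union_le K0 T)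
    rw [mk_complex] at h2
    exact absurd h2 (not_le.mpr (add_lt_of_lt aleph0_le_continuum hK0c hT))
  have inv : Inv A K0 := by
    intro σ hσ x
    show ¬ Conj A x0 x ↔ ¬ Conj A x0 (σ x)
    have h1 : Conj A x (σ x) := ⟨σ, hσ, rfl⟩
    exact not_congr ⟨fun h => h.trans h1, fun h => h.trans h1.symm⟩
  have single : ∀ a : ℂ, #({a} : Set ℂ) < 𝔠 := fun a => by
    rw [mk_singleton]
    exact lt_of_lt_of_le one_lt_aleph0 aleph0_le_continuum
  let K : Subfield ℂ :=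
    { carrier := K0
      mul_mem' := fun {a b} ha hb => key (image2 (· * ·) K0 K0) (lt_image2 hK0c hK0c)
        (by
          rintro σ hσ _ ⟨a, ha, b, hb, rfl⟩
          exact ⟨σ a, (inv σ hσ a).1 ha, σ b, (inv σ hσ b).1 hb, (map_mul σ a b).symm⟩)
        ⟨a, ha, b, hb, rfl⟩
      one_mem' := key {1} (single 1) (by
        rintro σ hσ x rfl
        exact map_one σ) rfl
      add_mem' := fun {a b} ha hb => key (image2 (· + ·) K0 K0) (lt_image2 hK0c hK0c)
        (by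
          rintro σ hσ _ ⟨a, ha, b, hb, rfl⟩
          exact ⟨σ a, (inv σ hσ a).1 ha, σ b, (inv σ hσ b).1 hb, (map_add σ a b).symm⟩)
        ⟨a, ha, b, hb, rfl⟩
      zero_mem' := key {0} (single 0) (by
        rintro σ hσ x rfl
        exact map_zero σ) rfl
      neg_mem' := fun {a} ha => key (image (fun x => -x) K0) (lt_of_le_of_lt mk_image_le hK0c)
        (by
          rintro σ hσ _ ⟨a, ha, rfl⟩
          exact ⟨σ a, (inv σ hσ a).1 ha, (map_neg σ a).symm⟩)
        ⟨a, ha, rfl⟩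
      inv_mem' := fun a ha => key (image (fun x => x⁻¹) K0) (lt_of_le_of_lt mk_image_le hK0c)
        (by
          rintro σ hσ _ ⟨a, ha, rfl⟩
          exact ⟨σ a, (inv σ hσ a).1 ha, (map_inv₀ σ a).symm⟩)
        ⟨a, ha, rfl⟩ }
  have hmem : ∀ x, x ∈ K ↔ x ∈ K0 := fun x => Iff.rfl
  refine ⟨K, ⟨?_, inv, ?_, ?_, ?_⟩, hK0, ?_⟩
  · intro a ha
    refine key {a} (single a) ?_ rfl
    rintro σ hσ x rfl
    exact hσ.2 x ha
  · intro z hz
    refine key (algebraicClosure K ℂ : Set ℂ) ?_ ?_ (mem_algebraicClosure_iff.mpr hz)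
    · refine lt_of_le_of_lt (Algebra.IsAlgebraic.cardinalMk_le_max K (algebraicClosure K ℂ)) ?_
      exact max_lt hK0c aleph0_lt_continuum
    · intro σ hσ x hx
      have hx' : IsAlgebraic K x := mem_algebraicClosure_iff.mp hx
      obtain ⟨p, hp, hpx⟩ := hx'
      let σK : K →+* K := (σ : ℂ →+* ℂ).restrict K K (fun x hx => (inv σ hσ x).1 hx)
      have hcomp : (algebraMap K ℂ).comp σK = (σ : ℂ →+* ℂ).comp (algebraMap K ℂ) := by
        ext y
        rfl
      refine mem_algebraicClosure_iff.mpr ⟨p.map σK, ?_, ?_⟩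
      · exact (Polynomial.map_ne_zero_iff σK.injective).mpr hp
      · rw [Polynomial.aeval_def, Polynomial.eval₂_map, hcomp]
        have h1 := Polynomial.hom_eval₂ p (algebraMap K ℂ) (σ : ℂ →+* ℂ) x
        rw [← Polynomial.aeval_def, hpx, map_zero] at h1
        exact h1.symm
  · intro z hz
    refine key (Complex.exp '' K0) (lt_of_le_of_lt mk_image_le hK0c) ?_ ⟨z, hz, rfl⟩
    rintro σ hσ _ ⟨a, ha, rfl⟩
    exact ⟨σ a, (inv σ hσ a).1 ha, (hσ.1 a).symm⟩
  · intro z hz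
    refine key (Complex.exp ⁻¹' K0) ?_ ?_ hz
    · have h1 : Complex.exp ⁻¹' K0 ⊆ image2 (fun (k : ℂ) (n : ℤ) =>
          Complex.log k + n * (2 * Real.pi * Complex.I)) K0 univ := by
        intro x hx
        have h2 : Complex.exp x = Complex.exp (Complex.log (Complex.exp x)) :=
          (Complex.exp_log (Complex.exp_ne_zero x)).symm
        obtain ⟨n, hn⟩ := Complex.exp_eq_exp_iff_exists_int.mp h2
        exact ⟨Complex.exp x, hx, n, mem_univ _, hn.symm⟩
      refine lt_of_le_of_lt (mk_le_mk_of_subset h1) (lt_image2 hK0c ?_)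
      rw [mk_univ]
      exact lt_of_le_of_lt (mk_le_aleph0) aleph0_lt_continuum
    · intro σ hσ x hx
      show Complex.exp (σ x) ∈ K0
      rw [← hσ.1]
      exact (inv σ hσ _).1 hx
  · intro x hx y hy
    have hx' : Conj A x0 x := not_not.mp hx
    have hy' : Conj A x0 y := not_not.mp hy
    exact hx'.symm.trans hy'

/-! ### splitting -/

/-- In an infinite set of cardinals without maximum there is a subset which is unbounded and has an
unbounded complement. -/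
theorem exists_parity (V : Set Cardinal.{0}) (hV : ∀ v ∈ V, ∃ w ∈ V, v < w) :
    ∃ p : Cardinal.{0} → Prop, ∀ v ∈ V, ∃ w ∈ V, v < w ∧ (p w ↔ ¬ p v) := by
  classical
  let s : Cardinal.{0} → Cardinal.{0} := fun v => sInf {w | w ∈ V ∧ v < w}
  have hs : ∀ v ∈ V, s v ∈ V ∧ v < s v := by
    intro v hv
    obtain ⟨w, hw, hvw⟩ := hV v hv
    exact csInf_mem (s := {w | w ∈ V ∧ v < w}) ⟨w, hw, hvw⟩
  have hle : ∀ v w, w ∈ V → v < w → s v ≤ w := fun v w hw hvw => csInf_le' ⟨hw, hvw⟩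
  let p : Cardinal.{0} → Prop := (wellFounded_lt : WellFounded (α := Cardinal.{0}) (· < ·)).fix
    (fun v rec => ∃ u, ∃ h : u < v, u ∈ V ∧ s u = v ∧ ¬ rec u h)
  have hp : ∀ v, p v = ∃ u, ∃ h : u < v, u ∈ V ∧ s u = v ∧ ¬ p u := fun v =>
    (wellFounded_lt : WellFounded (α := Cardinal.{0}) (· < ·)).fix_eq _ v
  refine ⟨p, fun v hv => ⟨s v, (hs v hv).1, (hs v hv).2, ?_⟩⟩
  rw [hp (s v)]
  constructor
  · rintro ⟨u, hu, huV, hus, hpu⟩
    have huv : u = v := by
      rcases lt_trichotomy u v with h1 | h1 | h1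
      · exact absurd (hle u v hv h1) (not_le.mpr (hus ▸ (hs v hv).2))
      · exact h1
      · exact absurd (hle v u huV h1) (not_le.mpr hu)
    exact huv ▸ hpu
  · intro h1
    exact ⟨v, (hs v hv).2, hv, rfl, h1⟩

theorem split {A : Set ℂ} (h : ∀ x, #{y | Conj A x y} < 𝔠) :
    ∃ X : Set ℂ, Inv A X ∧ #X = 𝔠 ∧ #(Xᶜ : Set ℂ) = 𝔠 := by
  classical
  let Q := Quotient (st A)
  let mk : ℂ → Q := Quotient.mk (st A)
  have hmk : ∀ x y, mk x = mk y ↔ Conj A x y := fun x y =>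
    ⟨fun h => Quotient.exact (s := st A) h, fun h => Quotient.sound (s := st A) h⟩
  let f : Q → Cardinal.{0} := fun q => #{y | mk y = q}
  have hf : ∀ q, f q < 𝔠 := by
    intro q
    obtain ⟨x, rfl⟩ := Quotient.exists_rep q
    have h1 : {y | mk y = Quotient.mk (st A) x} = {y | Conj A x y} := by
      ext y
      exact (hmk y x).trans ⟨Conj.symm, Conj.symm⟩
    show #{y | mk y = Quotient.mk (st A) x} < 𝔠
    rw [h1]
    exact h x
  have le_c : ∀ Y : Set ℂ, #Y ≤ 𝔠 := fun Y => by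
    rw [← mk_complex]
    exact mk_set_le Y
  have hQc : #Q ≤ 𝔠 := by
    rw [← mk_complex]
    exact mk_le_of_surjective (f := mk) Quotient.mk_surjective
  rcases hQc.lt_or_eq with hQ | hQ
  · -- few orbits
    have big : ∀ μ < 𝔠, ∃ q, μ < f q := by
      intro μ hμ
      by_contra hc
      push Not at hc
      have h1 : (univ : Set ℂ) = ⋃ q : Q, {y | mk y = q} := by
        ext y
        simp
      have h2 : #ℂ ≤ #Q * μ := by
        rw [← mk_univ, h1]
        refine (mk_iUnion_le_sum_mk).trans ?_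
        refine (sum_le_sum _ (fun _ => μ) hc).trans ?_
        rw [sum_const']
      rw [mk_complex] at h2
      exact absurd h2 (not_le.mpr (mul_lt_of_lt aleph0_le_continuum hQ hμ))
    obtain ⟨p, hp⟩ := exists_parity (range f) (by
      rintro _ ⟨q, rfl⟩
      obtain ⟨q', hq'⟩ := big (f q) (hf q)
      exact ⟨f q', ⟨q', rfl⟩, hq'⟩)
    have both : ∀ μ < 𝔠, (∃ q, μ < f q ∧ p (f q)) ∧ ∃ q, μ < f q ∧ ¬ p (f q) := by
      intro μ hμ
      obtain ⟨q, hq⟩ := big μ hμ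
      obtain ⟨_, ⟨q', rfl⟩, hlt, hpp⟩ := hp (f q) ⟨q, rfl⟩
      by_cases h1 : p (f q)
      · exact ⟨⟨q, hq, h1⟩, ⟨q', hq.trans hlt, fun h2 => (hpp.mp h2) h1⟩⟩
      · exact ⟨⟨q', hq.trans hlt, hpp.mpr h1⟩, ⟨q, hq, h1⟩⟩
    refine ⟨{x | p (f (mk x))}, inv_of_class (fun q => p (f q)), ?_, ?_⟩
    · refine le_antisymm (le_c _) (le_of_not_gt fun hlt => ?_)
      obtain ⟨⟨q, hq, hpq⟩, _⟩ := both _ hlt
      refine absurd hq (not_lt.mpr (mk_le_mk_of_subset ?_))
      intro y hy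
      show p (f (mk y))
      rw [show mk y = q from hy]
      exact hpq
    · refine le_antisymm (le_c _) (le_of_not_gt fun hlt => ?_)
      obtain ⟨_, ⟨q, hq, hpq⟩⟩ := both _ hlt
      refine absurd hq (not_lt.mpr (mk_le_mk_of_subset ?_))
      intro y hy
      show ¬ p (f (mk y))
      rw [show mk y = q from hy]
      exact hpq
  · -- many orbits
    have h1 : #Q = #(Q ⊕ Q) := by
      rw [mk_sum, lift_id, hQ]
      exact (add_eq_self aleph0_le_continuum).symm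
    obtain ⟨e⟩ := Cardinal.eq.mp h1
    let P : Q → Prop := fun q => (e q).isLeft = true
    refine ⟨{x | P (mk x)}, inv_of_class P, ?_, ?_⟩
    · refine le_antisymm (le_c _) ?_
      rw [← hQ]
      let g : Q → {x | P (mk x)} := fun q => ⟨(e.symm (Sum.inl q)).out, by
        show P (mk (e.symm (Sum.inl q)).out)
        have : mk (e.symm (Sum.inl q)).out = e.symm (Sum.inl q) := Quotient.out_eq _
        rw [this]
        show (e (e.symm (Sum.inl q))).isLeft = true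
        rw [Equiv.apply_symm_apply]
        rfl⟩
      refine mk_le_of_injective (f := g) ?_
      intro a b hab
      have h2 : (e.symm (Sum.inl a)).out = (e.symm (Sum.inl b)).out := congrArg Subtype.val hab
      have h3 : e.symm (Sum.inl a) = e.symm (Sum.inl b) := by
        rw [← Quotient.out_eq (e.symm (Sum.inl a)), ← Quotient.out_eq (e.symm (Sum.inl b)), h2]
      exact Sum.inl_injective (e.symm.injective h3)
    · refine le_antisymm (le_c _) ?_
      rw [← hQ]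
      let g : Q → ({x | P (mk x)}ᶜ : Set ℂ) := fun q => ⟨(e.symm (Sum.inr q)).out, by
        show ¬ P (mk (e.symm (Sum.inr q)).out)
        have : mk (e.symm (Sum.inr q)).out = e.symm (Sum.inr q) := Quotient.out_eq _
        rw [this]
        show ¬ (e (e.symm (Sum.inr q))).isLeft = true
        rw [Equiv.apply_symm_apply]
        simp⟩
      refine mk_le_of_injective (f := g) ?_
      intro a b hab
      have h2 : (e.symm (Sum.inr a)).out = (e.symm (Sum.inr b)).out := congrArg Subtype.val hab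
      have h3 : e.symm (Sum.inr a) = e.symm (Sum.inr b) := by
        rw [← Quotient.out_eq (e.symm (Sum.inr a)), ← Quotient.out_eq (e.symm (Sum.inr b)), h2]
      exact Sum.inr_injective (e.symm.injective h3)

/-! ### small sets of tuples -/

theorem Small.mono : ∀ {n : ℕ} {X Y : Set (Fin n → ℂ)}, X ⊆ Y → Small n Y → Small n X
  | 0, _, _, hXY, hY => subset_empty_iff.mp (hXY.trans (le_of_eq hY))
  | _ + 1, _, _, hXY, hY => Set.Countable.mono
      (fun _ hx hy => hx (Small.mono (fun _ hv => hXY hv) hy)) hY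

theorem Small.comp (σ : ℂ ≃+* ℂ) : ∀ {n : ℕ} {X : Set (Fin n → ℂ)}, Small n X →
    Small n {v : Fin n → ℂ | (fun i => σ.symm (v i)) ∈ X}
  | 0, X, hX => by
      have hX' : X = ∅ := hX
      show {v : Fin 0 → ℂ | (fun i => σ.symm (v i)) ∈ X} = ∅
      rw [hX']
      rfl
  | n + 1, X, hX => by
      have h1 : {x : ℂ | ¬ Small n {v : Fin n → ℂ | (Fin.cons x v : Fin (n + 1) → ℂ) ∈ X}}.Countable :=
        hX
      refine Set.Countable.mono ?_ (h1.image σ)
      intro x hx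
      refine ⟨σ.symm x, fun hc => hx ?_, σ.apply_symm_apply x⟩
      refine Small.mono ?_ (Small.comp σ hc)
      intro v hv
      show (Fin.cons (σ.symm x) (fun i => σ.symm (v i)) : Fin (n + 1) → ℂ) ∈ X
      have hv' : (fun i => σ.symm ((Fin.cons x v : Fin (n + 1) → ℂ) i)) ∈ X := hv
      convert hv' using 1
      funext i
      refine Fin.cases ?_ (fun j => ?_) i
      · rfl
      · rfl

/-! ### the theorem -/

/-- quasiminimality over `A` -/
def QM (A : Set ℂ) : Prop := ∀ X : Set ℂ, Inv A X → X.Countable ∨ Xᶜ.Countable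

/-- `A` is contained in a countable set outside of which all numbers are conjugate over `A`. -/
def OneOrbit (A : Set ℂ) : Prop := ∃ F : Set ℂ, F.Countable ∧ ∀ x ∉ F, ∀ y ∉ F, Conj A x y

theorem qm_of_oneOrbit {A : Set ℂ} (h : OneOrbit A) : QM A := by
  obtain ⟨F, hF, h⟩ := h
  intro X hX
  by_cases h1 : X ⊆ F
  · exact Or.inl (hF.mono h1)
  · obtain ⟨x, hx, hxF⟩ := not_subset.mp h1
    refine Or.inr (hF.mono fun y hy => by_contra fun hyF => hy ?_)
    obtain ⟨σ, hσ, rfl⟩ := h x hxF y hyF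
    exact (hX σ hσ x).1 hx

theorem orbit_inv (A : Set ℂ) (x : ℂ) : Inv A {y | Conj A x y} := by
  intro σ hσ y
  have h1 : Conj A y (σ y) := ⟨σ, hσ, rfl⟩
  exact ⟨fun h => h.trans h1, fun h => Conj.trans h h1.symm⟩

theorem inv_compl {A X : Set ℂ} (h : Inv A X) : Inv A Xᶜ := fun σ hσ x => not_congr (h σ hσ x)

theorem countable_lt {X : Set ℂ} (h : X.Countable) : #X < 𝔠 :=
  lt_of_le_of_lt (le_aleph0_iff_set_countable.mpr h) aleph0_lt_continuum

theorem not_both {X : Set ℂ} (h : #X < 𝔠) (h' : #(Xᶜ : Set ℂ) < 𝔠) : False := by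
  have h1 := mk_sum_compl X
  rw [mk_complex] at h1
  exact absurd h1 (ne_of_lt (add_lt_of_lt aleph0_le_continuum h h'))

theorem oneOrbit_of_qm {A : Set ℂ} (h : QM A) : OneOrbit A := by
  by_cases h1 : ∃ x, {y | Conj A x y}ᶜ.Countable
  · obtain ⟨x, hx⟩ := h1
    refine ⟨_, hx, fun y hy z hz => ?_⟩
    exact (Conj.symm (not_not.mp hy)).trans (not_not.mp hz)
  · push Not at h1
    obtain ⟨X, hX, hc, hc'⟩ := split (A := A) (fun x => countable_lt
      ((h _ (orbit_inv A x)).resolve_right (h1 x)))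
    rcases h X hX with h2 | h2
    · exact absurd hc (ne_of_lt (countable_lt h2))
    · exact absurd hc' (ne_of_lt (countable_lt h2))

/-- The condition on cardinalities and subfields. -/
def NoMiddle (A : Set ℂ) : Prop :=
  (∀ X : Set ℂ, Inv A X → ¬ (#X = 𝔠 ∧ #(Xᶜ : Set ℂ) = 𝔠)) ∧
  ∀ K : Subfield ℂ, Closed A K → (∀ x ∉ K, ∀ y ∉ K, Conj A x y) → #K < 𝔠 →
    (K : Set ℂ).Countable

theorem noMiddle_of_qm {A : Set ℂ} (h : QM A) : NoMiddle A := by
  refine ⟨fun X hX hc => ?_, fun K hK _ hlt => ?_⟩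
  · rcases h X hX with h2 | h2
    · exact absurd hc.1 (ne_of_lt (countable_lt h2))
    · exact absurd hc.2 (ne_of_lt (countable_lt h2))
  · exact (h K hK.inv).resolve_right fun h2 => not_both hlt (countable_lt h2)

theorem oneOrbit_of_noMiddle {A : Set ℂ} (h : NoMiddle A) : OneOrbit A := by
  have h1 : ¬ ∀ x, #{y | Conj A x y} < 𝔠 := fun hc => by
    obtain ⟨X, hX, hc, hc'⟩ := split hc
    exact h.1 X hX ⟨hc, hc'⟩
  push Not at h1
  obtain ⟨x, hx⟩ := h1
  have le_c : ∀ Y : Set ℂ, #Y ≤ 𝔠 := fun Y => by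
    rw [← mk_complex]
    exact mk_set_le Y
  have h2 : #({y | Conj A x y}ᶜ : Set ℂ) < 𝔠 :=
    lt_of_le_of_ne (le_c _) fun hc => h.1 _ (orbit_inv A x) ⟨le_antisymm (le_c _) hx, hc⟩
  obtain ⟨K, hK, hlt, htr⟩ := main le_rfl h2 (fun y hy z hz =>
    (Conj.symm (not_not.mp hy)).trans (not_not.mp hz))
  exact ⟨K, h.2 K hK htr hlt, htr⟩

/-- There is a countable closed subfield outside of which all numbers are conjugate. -/
def ClosedField (A : Set ℂ) : Prop :=
  ∃ K : Subfield ℂ, Closed A K ∧ (K : Set ℂ).Countable ∧ ∀ x ∉ K, ∀ y ∉ K, Conj A x y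

theorem closedField_of_oneOrbit {A : Set ℂ} (h : OneOrbit A) : ClosedField A := by
  obtain ⟨F, hF, h⟩ := h
  have h1 : #F < ℵ₁ := lt_aleph_one_iff.mpr (le_aleph0_iff_set_countable.mpr hF)
  obtain ⟨K, hK, hlt, htr⟩ := main aleph_one_le_continuum h1 h
  exact ⟨K, hK, le_aleph0_iff_set_countable.mp (lt_aleph_one_iff.mp hlt), htr⟩

/-- For each `n` there is a set of `n`-tuples with small complement all of whose elements are
conjugate over `A`. -/
def TupleOrbits (A : Set ℂ) : Prop :=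
  ∀ n : ℕ, ∃ B : Set (Fin n → ℂ), Small n Bᶜ ∧
    ∀ v ∈ B, ∀ w ∈ B, ∃ σ : ℂ ≃+* ℂ, IsAut A σ ∧ ∀ i, σ (v i) = w i

/-- Every invariant set of `n`-tuples is small or has a small complement. -/
def TupleQM (A : Set ℂ) : Prop :=
  ∀ n : ℕ, ∀ X : Set (Fin n → ℂ),
    (∀ σ : ℂ ≃+* ℂ, IsAut A σ → ∀ v, v ∈ X ↔ (fun i => σ (v i)) ∈ X) →
    Small n X ∨ Small n Xᶜ

theorem tupleOrbits (h : ∀ A : Finset ℂ, OneOrbit A) :
    ∀ n : ℕ, ∀ A : Finset ℂ, ∃ B : Set (Fin n → ℂ), Small n Bᶜ ∧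
    ∀ v ∈ B, ∀ w ∈ B, ∃ σ : ℂ ≃+* ℂ, IsAut A σ ∧ ∀ i, σ (v i) = w i := by
  classical
  intro n
  induction n with
  | zero =>
    intro A
    refine ⟨univ, ?_, fun v _ w _ => ⟨_, IsAut.refl _, fun i => i.elim0⟩⟩
    show (univ : Set (Fin 0 → ℂ))ᶜ = ∅
    exact compl_univ
  | succ n ih =>
    intro A
    obtain ⟨F, hF, hFA⟩ := h A
    obtain ⟨x0, hx0⟩ : ∃ x0, x0 ∉ F := by
      by_contra hc
      push Not at hc
      have h1 : F = univ := eq_univ_of_forall hc
      have h2 := countable_lt hF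
      rw [h1, mk_univ, mk_complex] at h2
      exact lt_irrefl _ h2
    obtain ⟨B0, hB0, htr⟩ := ih (insert x0 A)
    refine ⟨{v | ∃ σ : ℂ ≃+* ℂ, IsAut A σ ∧ σ x0 = v 0 ∧ (fun i : Fin n => σ.symm (v i.succ)) ∈ B0},
      ?_, ?_⟩
    · refine Set.Countable.mono ?_ hF
      intro x hx
      by_contra hxF
      obtain ⟨σ, hσ, hσx⟩ := hFA x0 hx0 x hxF
      refine hx (Small.mono ?_ (Small.comp σ hB0))
      intro v hv hc
      exact hv ⟨σ, hσ, hσx, hc⟩
    · rintro v ⟨σ, hσ, hσ0, hσv⟩ w ⟨τ, hτ, hτ0, hτw⟩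
      obtain ⟨ρ, hρ, hρv⟩ := htr _ hσv _ hτw
      have hρ' : IsAut A ρ := hρ.mono (by simp)
      refine ⟨(σ.symm.trans ρ).trans τ, (hσ.symm.trans hρ').trans hτ, fun i => ?_⟩
      refine Fin.cases ?_ (fun j => ?_) i
      · show τ (ρ (σ.symm (v 0))) = w 0
        rw [← hσ0, RingEquiv.symm_apply_apply, hρ.2 x0 (by simp), hτ0]
      · show τ (ρ (σ.symm (v j.succ))) = w j.succ
        rw [hρv j, RingEquiv.apply_symm_apply]

theorem tupleQM_of_orbits {A : Set ℂ} (h : TupleOrbits A) : TupleQM A := by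
  intro n X hX
  obtain ⟨B, hB, htr⟩ := h n
  by_cases h1 : B ⊆ X
  · exact Or.inr (Small.mono (compl_subset_compl.mpr h1) hB)
  · obtain ⟨v, hv, hvX⟩ := not_subset.mp h1
    have h3 : X ⊆ Bᶜ := by
      intro w hw hwB
      obtain ⟨σ, hσ, hσv⟩ := htr v hv w hwB
      refine hvX ((hX σ hσ v).2 ?_)
      have h2 : (fun i => σ (v i)) = w := funext hσv
      rw [h2]
      exact hw
    exact Or.inl (Small.mono h3 hB)

theorem qm_of_tupleQM {A : Set ℂ} (h : TupleQM A) : QM A := by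
  intro X hX
  have key : ∀ Y : Set ℂ, Small 1 {v : Fin 1 → ℂ | v 0 ∈ Y} → Y.Countable := by
    intro Y hY
    refine Set.Countable.mono ?_ hY
    intro y hy hc
    have hc' : {v : Fin 0 → ℂ | (Fin.cons y v : Fin 1 → ℂ) ∈ {v : Fin 1 → ℂ | v 0 ∈ Y}} = ∅ := hc
    have h3 : (fun i : Fin 0 => (i.elim0 : ℂ)) ∈
        {v : Fin 0 → ℂ | (Fin.cons y v : Fin 1 → ℂ) ∈ {v : Fin 1 → ℂ | v 0 ∈ Y}} := hy
    rw [hc'] at h3
    exact h3
  rcases h 1 {v | v 0 ∈ X} (fun σ hσ v => hX σ hσ (v 0)) with h1 | h1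
  · exact Or.inl (key X h1)
  · exact Or.inr (key Xᶜ h1)

/-- `S` generates `ℂ` as a field with exponentiation. -/
def Generates (S : Set ℂ) : Prop :=
  ∀ F : Subfield ℂ, S ⊆ F → (∀ z ∈ F, Complex.exp z ∈ F) → F = ⊤

theorem exists_fixing {S : Set ℂ} (hS : Generates S) (a : ℂ) :
    ∃ T : Finset ℂ, (T : Set ℂ) ⊆ S ∧ ∀ σ : ℂ ≃+* ℂ, IsAut T σ → σ a = a := by
  classical
  let F : Subfield ℂ :=
    { carrier := {a | ∃ T : Finset ℂ, (T : Set ℂ) ⊆ S ∧ ∀ σ : ℂ ≃+* ℂ, IsAut T σ → σ a = a}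
      mul_mem' := by
        rintro a b ⟨T, hT, h⟩ ⟨T', hT', h'⟩
        refine ⟨T ∪ T', by simpa using ⟨hT, hT'⟩, fun σ hσ => ?_⟩
        rw [map_mul, h σ (hσ.mono (by simp)), h' σ (hσ.mono (by simp))]
      one_mem' := ⟨∅, by simp, fun σ _ => map_one σ⟩
      add_mem' := by
        rintro a b ⟨T, hT, h⟩ ⟨T', hT', h'⟩
        refine ⟨T ∪ T', by simpa using ⟨hT, hT'⟩, fun σ hσ => ?_⟩
        rw [map_add, h σ (hσ.mono (by simp)), h' σ (hσ.mono (by simp))]
      zero_mem' := ⟨∅, by simp, fun σ _ => map_zero σ⟩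
      neg_mem' := by
        rintro a ⟨T, hT, h⟩
        exact ⟨T, hT, fun σ hσ => by rw [map_neg, h σ hσ]⟩
      inv_mem' := by
        rintro a ⟨T, hT, h⟩
        exact ⟨T, hT, fun σ hσ => by rw [map_inv₀, h σ hσ]⟩ }
  have hF : F = ⊤ := by
    refine hS F (fun a ha => ⟨{a}, by simpa using ha, fun σ hσ => hσ.2 a (by simp)⟩) ?_
    rintro z ⟨T, hT, h⟩
    exact ⟨T, hT, fun σ hσ => by rw [hσ.1, h σ hσ]⟩
  have h1 : a ∈ F := by
    rw [hF]
    trivial
  exact h1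

theorem exists_fixing_finset {S : Set ℂ} (hS : Generates S) (A : Finset ℂ) :
    ∃ T : Finset ℂ, (T : Set ℂ) ⊆ S ∧ ∀ σ : ℂ ≃+* ℂ, IsAut T σ → IsAut A σ := by
  classical
  choose T hT hfix using exists_fixing hS
  refine ⟨A.biUnion T, ?_, fun σ hσ => ⟨hσ.1, fun a ha => hfix a σ (hσ.mono ?_)⟩⟩
  · intro x hx
    obtain ⟨a, _, hx⟩ := Finset.mem_biUnion.mp (Finset.mem_coe.mp hx)
    exact hT a (Finset.mem_coe.mpr hx)
  · intro x hx
    exact Finset.mem_coe.mpr (Finset.mem_biUnion.mpr ⟨a, Finset.mem_coe.mp ha, Finset.mem_coe.mp hx⟩)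

theorem qm_all {S : Set ℂ} (hS : Generates S) (h : ∀ A : Finset ℂ, (A : Set ℂ) ⊆ S → QM A) :
    ∀ A : Finset ℂ, QM A := by
  intro A X hX
  obtain ⟨T, hT, hfix⟩ := exists_fixing_finset hS A
  exact h T hT X fun σ hσ => hX σ (hfix σ hσ)

/-- Reformulations of the quasiminimality of the complex exponential field. -/
theorem result (S : Set ℂ) (hS : Generates S) :
    [∀ A : Finset ℂ, ∀ X : Set ℂ, Inv A X → X.Countable ∨ Xᶜ.Countable,
     ∀ A : Finset ℂ, (A : Set ℂ) ⊆ S → ∀ X : Set ℂ, Inv A X → X.Countable ∨ Xᶜ.Countable,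
     ∀ A : Finset ℂ, (A : Set ℂ) ⊆ S → ∃ F : Set ℂ, F.Countable ∧ ∀ x ∉ F, ∀ y ∉ F, Conj A x y,
     ∀ A : Finset ℂ, (A : Set ℂ) ⊆ S → ClosedField A,
     ∀ A : Finset ℂ, (A : Set ℂ) ⊆ S → NoMiddle A,
     ∀ A : Finset ℂ, (A : Set ℂ) ⊆ S → TupleOrbits A,
     ∀ A : Finset ℂ, (A : Set ℂ) ⊆ S → TupleQM A].TFAE := by
  tfae_have 1 → 2 := fun h A _ => h A
  tfae_have 2 → 1 := fun h => qm_all hS h
  tfae_have 2 → 3 := fun h A hA => oneOrbit_of_qm (h A hA)
  tfae_have 3 → 2 := fun h A hA => qm_of_oneOrbit (h A hA)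
  tfae_have 3 → 4 := fun h A hA => closedField_of_oneOrbit (h A hA)
  tfae_have 4 → 3 := fun h A hA => by
    obtain ⟨K, _, hc, htr⟩ := h A hA
    exact ⟨K, hc, htr⟩
  tfae_have 2 → 5 := fun h A hA => noMiddle_of_qm (h A hA)
  tfae_have 5 → 3 := fun h A hA => oneOrbit_of_noMiddle (h A hA)
  tfae_have 1 → 6 := fun h A _ n => tupleOrbits (fun A => oneOrbit_of_qm (h A)) n A
  tfae_have 6 → 7 := fun h A hA => tupleQM_of_orbits (h A hA)
  tfae_have 7 → 2 := fun h A hA => qm_of_tupleQM (h A hA)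
  tfae_finish

end Pool.Agent.Results.MP_a12702_lc.OrbitsAndSubfields
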