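import Mathlib
import Pool.Agent.Results.MP_a12702_lc.OrbitsAndSubfields

/-!
If the complex exponential field is quasiminimal, then countably many conjugates defines a
homogeneous closure operator, and without the continuum hypothesis it is a pregeometry.
-/

set_option autoImplicit false

namespace Pool.Agent.Results.MP_a12702_lc.Pregeometry

open Set
open Cardinal hiding univ
open Pool.Agent.Results.MP_a12702_lc.OrbitsAndSubfields

/-- A closure operator on the finite sets of complex numbers whose values are countable closed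
subfields, which respects automorphisms, and such that over each finite `A` all numbers outside the
closure of `A` are conjugate. -/
structure IsHomogeneousClosure (cl : Finset ℂ → Set ℂ) : Prop where
  sub : ∀ A : Finset ℂ, (A : Set ℂ) ⊆ cl A
  mono : ∀ A B : Finset ℂ, A ⊆ B → cl A ⊆ cl B
  trans : ∀ A B : Finset ℂ, (B : Set ℂ) ⊆ cl A → cl B ⊆ cl A
  field : ∀ A : Finset ℂ, ∃ K : Subfield ℂ, Closed A K ∧ cl A = K
  equivariant : ∀ σ : ℂ ≃+* ℂ, IsAut ∅ σ → ∀ A B : Finset ℂ, (B : Set ℂ) = σ '' A →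
    ∀ x ∈ cl A, σ x ∈ cl B
  countable : ∀ A : Finset ℂ, (cl A).Countable
  transitive : ∀ A : Finset ℂ, ∀ x ∉ cl A, ∀ y ∉ cl A, Conj A x y

/-- The numbers with countably many conjugates over `A`. -/
def ccl (A : Finset ℂ) : Set ℂ := {x | {y | Conj A x y}.Countable}

/-- The exchange property; `B` is `A` with `b` added, `C` is `A` with `a` added. -/
def Exchange (cl : Finset ℂ → Set ℂ) : Prop :=
  ∀ (A B C : Finset ℂ) (a b : ℂ), (B : Set ℂ) = insert b (A : Set ℂ) →
    (C : Set ℂ) = insert a (A : Set ℂ) → a ∈ cl B → a ∉ cl A → b ∈ cl C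

/-- Independent tuples: the first entry is not in the closure of `A`, and the remaining tuple is
independent over `A` with the first entry added. -/
def Indep (cl : Finset ℂ → Set ℂ) : (n : ℕ) → Finset ℂ → (Fin n → ℂ) → Prop
  | 0, _, _ => True
  | n + 1, A, v => v 0 ∉ cl A ∧ ∀ B : Finset ℂ, (B : Set ℂ) = insert (v 0) (A : Set ℂ) →
      Indep cl n B (fun i => v i.succ)

/-! ### the operator `ccl` -/

theorem ccl_sub (A : Finset ℂ) : (A : Set ℂ) ⊆ ccl A := by
  intro a ha
  refine (countable_singleton a).mono ?_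
  rintro y ⟨σ, hσ, rfl⟩
  exact hσ.2 a ha

theorem ccl_mono {A B : Finset ℂ} (h : A ⊆ B) : ccl A ⊆ ccl B := by
  intro x hx
  refine Set.Countable.mono ?_ hx
  rintro y ⟨σ, hσ, rfl⟩
  exact ⟨σ, hσ.mono (Finset.coe_subset.mpr h), rfl⟩

theorem ccl_trans {A B : Finset ℂ} (h : (B : Set ℂ) ⊆ ccl A) : ccl B ⊆ ccl A := by
  classical
  intro x hx
  let T : Set ((b : B) → ℂ) := Set.pi univ fun b : B => {y | Conj A b y}
  have hT : T.Countable := countable_univ_pi fun b => h b.2
  let τ : ((b : B) → ℂ) → (ℂ ≃+* ℂ) := fun f =>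
    if h : ∃ σ : ℂ ≃+* ℂ, IsAut A σ ∧ ∀ b : B, σ b = f b then h.choose else RingEquiv.refl ℂ
  have h1 : {y | Conj A x y} ⊆ ⋃ f ∈ T, (τ f) '' {y | Conj B x y} := by
    rintro y ⟨σ, hσ, rfl⟩
    let f : (b : B) → ℂ := fun b => σ b
    have hf : f ∈ T := fun b _ => ⟨σ, hσ, rfl⟩
    have hex : ∃ σ : ℂ ≃+* ℂ, IsAut A σ ∧ ∀ b : B, σ b = f b := ⟨σ, hσ, fun _ => rfl⟩
    have hτ : τ f = hex.choose := dif_pos hex
    have hs := hex.choose_spec
    rw [← hτ] at hs
    refine mem_biUnion hf ⟨(τ f).symm (σ x), ⟨σ.trans (τ f).symm, ⟨?_, ?_⟩, rfl⟩,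
      (τ f).apply_symm_apply _⟩
    · exact (hσ.trans hs.1.symm).1
    · intro b hb
      show (τ f).symm (σ b) = b
      apply (τ f).injective
      rw [RingEquiv.apply_symm_apply]
      exact (hs.2 ⟨b, hb⟩).symm
  exact Set.Countable.mono h1 (hT.biUnion fun f _ => Set.Countable.image hx _)

theorem ccl_equivariant (σ : ℂ ≃+* ℂ) (hσ : IsAut ∅ σ) (A B : Finset ℂ)
    (hB : (B : Set ℂ) = σ '' A) (x : ℂ) (hx : x ∈ ccl A) : σ x ∈ ccl B := by
  refine Set.Countable.mono ?_ (Set.Countable.image hx σ)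
  rintro z ⟨ρ, hρ, rfl⟩
  refine ⟨σ.symm (ρ (σ x)), ⟨(σ.trans ρ).trans σ.symm, ⟨?_, ?_⟩, rfl⟩, σ.apply_symm_apply _⟩
  · exact ((hσ.trans (hρ.mono (empty_subset _))).trans hσ.symm).1
  · intro a ha
    show σ.symm (ρ (σ a)) = a
    rw [hρ.2 (σ a) (by rw [hB]; exact ⟨a, ha, rfl⟩), RingEquiv.symm_apply_apply]

theorem not_countable_both {X : Set ℂ} (h : X.Countable) (h' : Xᶜ.Countable) : False :=
  not_both (countable_lt h) (countable_lt h')

/-- If outside the countable invariant set `X` all numbers are conjugate over `A`, then `X` is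
`ccl A`. -/
theorem eq_ccl {A : Finset ℂ} {X : Set ℂ} (hX : X.Countable) (hinv : Inv A X)
    (h : ∀ x ∉ X, ∀ y ∉ X, Conj A x y) : X = ccl A := by
  ext x
  constructor
  · intro hx
    refine hX.mono ?_
    rintro y ⟨σ, hσ, rfl⟩
    exact (hinv σ hσ x).1 hx
  · intro hx
    by_contra hxX
    exact not_countable_both hX (Set.Countable.mono (fun y hy => h x hxX y hy) hx)

theorem ccl_homogeneous (h : ∀ A : Finset ℂ, QM A) : IsHomogeneousClosure ccl := by
  have key : ∀ A : Finset ℂ, ∃ K : Subfield ℂ, Closed A K ∧ (K : Set ℂ).Countable ∧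
      (∀ x ∉ K, ∀ y ∉ K, Conj A x y) ∧ ccl A = K := by
    intro A
    obtain ⟨K, hK, hc, htr⟩ := closedField_of_oneOrbit (oneOrbit_of_qm (h A))
    exact ⟨K, hK, hc, htr, (eq_ccl hc hK.inv htr).symm⟩
  refine ⟨ccl_sub, fun A B => ccl_mono, fun A B => ccl_trans, ?_, ccl_equivariant, ?_, ?_⟩
  · intro A
    obtain ⟨K, hK, _, _, hcl⟩ := key A
    exact ⟨K, hK, hcl⟩
  · intro A
    obtain ⟨K, _, hc, _, hcl⟩ := key A
    rw [hcl]
    exact hc
  · intro A x hx y hy
    obtain ⟨K, _, _, htr, hcl⟩ := key A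
    rw [hcl] at hx hy
    exact htr x hx y hy

theorem unique {cl : Finset ℂ → Set ℂ} (h : IsHomogeneousClosure cl) : cl = ccl := by
  funext A
  obtain ⟨K, hK, hcl⟩ := h.field A
  refine eq_ccl (h.countable A) ?_ (h.transitive A)
  rw [hcl]
  exact hK.inv

theorem qm_of_homogeneous {cl : Finset ℂ → Set ℂ} (h : IsHomogeneousClosure cl) (A : Finset ℂ) :
    QM A :=
  qm_of_oneOrbit ⟨cl A, h.countable A, h.transitive A⟩

/-! ### exchange -/

theorem exchange {cl : Finset ℂ → Set ℂ} (h : IsHomogeneousClosure cl) (hc : (ℵ₁ : Cardinal.{0}) < 𝔠) :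
    Exchange cl := by
  classical
  intro A B C a b hB hC hab ha
  by_contra hb
  -- all generic pairs
  have key : ∀ x ∉ cl A, ∀ y ∉ cl (insert x A), x ∈ cl (insert y A) := by
    intro x hx y hy
    obtain ⟨σ, hσ, hσa⟩ := h.transitive A a ha x hx
    have hσ0 : IsAut ∅ σ := hσ.mono (empty_subset _)
    have hσb : σ b ∉ cl (insert x A) := by
      intro hmem
      refine hb ?_
      have h1 := h.equivariant σ.symm hσ0.symm (insert x A) C (by
        rw [hC]
        ext z
        constructor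
        · rintro (rfl | hz)
          · refine ⟨x, by simp, ?_⟩
            rw [← hσa, RingEquiv.symm_apply_apply]
          · refine ⟨z, by simp [Finset.mem_coe.mp hz], ?_⟩
            exact hσ.symm.2 z hz
        · rintro ⟨w, hw, rfl⟩
          rw [Finset.coe_insert] at hw
          rcases hw with rfl | hw
          · left
            rw [← hσa, RingEquiv.symm_apply_apply]
          · right
            rw [hσ.symm.2 w hw]
            exact hw) (σ b) hmem
      rwa [RingEquiv.symm_apply_apply] at h1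
    obtain ⟨ρ, hρ, hρb⟩ := h.transitive (insert x A) (σ b) hσb y hy
    have hρA : IsAut A ρ := hρ.mono (by simp)
    have hτ : IsAut A (σ.trans ρ) := hσ.trans hρA
    have h2 := h.equivariant (σ.trans ρ) (hτ.mono (empty_subset _)) B (insert y A) (by
      rw [hB, Finset.coe_insert]
      ext z
      constructor
      · rintro (rfl | hz)
        · exact ⟨b, Or.inl rfl, hρb⟩
        · exact ⟨z, Or.inr hz, hτ.2 z hz⟩
      · rintro ⟨w, hw, rfl⟩
        rcases hw with rfl | hw
        · left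
          exact hρb
        · right
          rw [hτ.2 w hw]
          exact hw) a hab
    have h3 : (σ.trans ρ) a = x := by
      show ρ (σ a) = x
      rw [hσa]
      exact hρ.2 x (by simp)
    rwa [h3] at h2
  have hbig : ℵ₁ ≤ #((cl A)ᶜ : Set ℂ) := by
    by_contra hlt
    push Not at hlt
    exact not_both (countable_lt (h.countable A)) (hlt.trans hc)
  obtain ⟨X, hX, hXc⟩ := le_mk_iff_exists_subset.mp hbig
  have hU : #(⋃ x : X, cl (insert (x : ℂ) A)) < 𝔠 := by
    refine lt_of_le_of_lt (mk_iUnion_le_sum_mk) ?_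
    refine lt_of_le_of_lt (sum_le_sum _ (fun _ => ℵ₀)
      (fun x => le_aleph0_iff_set_countable.mpr (h.countable _))) ?_
    rw [sum_const', hXc]
    exact mul_lt_of_lt aleph0_le_continuum hc aleph0_lt_continuum
  obtain ⟨y, hy⟩ : ∃ y, y ∉ ⋃ x : X, cl (insert (x : ℂ) A) := by
    by_contra hall
    push Not at hall
    rw [eq_univ_of_forall hall, mk_univ, mk_complex] at hU
    exact lt_irrefl _ hU
  have hsub : X ⊆ cl (insert y A) := fun x hx =>
    key x (hX hx) y fun hmem => hy (mem_iUnion.mpr ⟨⟨x, hx⟩, hmem⟩)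
  have h4 : #X ≤ ℵ₀ := le_aleph0_iff_set_countable.mpr ((h.countable _).mono hsub)
  rw [hXc] at h4
  exact absurd h4 (not_le.mpr aleph0_lt_aleph_one)

/-! ### independent tuples -/

theorem Indep.image {cl : Finset ℂ → Set ℂ} (h : IsHomogeneousClosure cl) (σ : ℂ ≃+* ℂ)
    (hσ : IsAut ∅ σ) : ∀ (n : ℕ) (A B : Finset ℂ) (v : Fin n → ℂ), (B : Set ℂ) = σ '' A →
    Indep cl n A v → Indep cl n B (fun i => σ (v i))
  | 0, _, _, _, _, _ => trivial
  | n + 1, A, B, v, hB, hv => by
      classical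
      refine ⟨fun hmem => hv.1 ?_, fun C hC => ?_⟩
      · have h1 := h.equivariant σ.symm hσ.symm B A (by
          rw [hB]
          ext z
          constructor
          · intro hz
            exact ⟨σ z, ⟨z, hz, rfl⟩, σ.symm_apply_apply z⟩
          · rintro ⟨_, ⟨w, hw, rfl⟩, rfl⟩
            rw [RingEquiv.symm_apply_apply]
            exact hw) _ hmem
        rwa [RingEquiv.symm_apply_apply] at h1
      · refine Indep.image h σ hσ n (insert (v 0) A) C (fun i => v i.succ) ?_
          (hv.2 _ (Finset.coe_insert _ _))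
        rw [hC, hB, Finset.coe_insert, image_insert_eq]

theorem conj_of_indep {cl : Finset ℂ → Set ℂ} (h : IsHomogeneousClosure cl) :
    ∀ (n : ℕ) (A : Finset ℂ) (v w : Fin n → ℂ), Indep cl n A v → Indep cl n A w →
    ∃ σ : ℂ ≃+* ℂ, IsAut A σ ∧ ∀ i, σ (v i) = w i
  | 0, _, _, _, _, _ => ⟨_, IsAut.refl _, fun i => i.elim0⟩
  | n + 1, A, v, w, hv, hw => by
      classical
      obtain ⟨σ, hσ, hσ0⟩ := h.transitive A (v 0) hv.1 (w 0) hw.1
      have h1 : Indep cl n (insert (w 0) A) (fun i => σ (v i.succ)) := by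
        refine Indep.image h σ (hσ.mono (empty_subset _)) n (insert (v 0) A) _
          (fun i => v i.succ) ?_ (hv.2 _ (Finset.coe_insert _ _))
        rw [Finset.coe_insert, Finset.coe_insert, image_insert_eq, hσ0]
        congr 1
        ext z
        constructor
        · intro hz
          exact ⟨z, hz, hσ.2 z hz⟩
        · rintro ⟨u, hu, rfl⟩
          rw [hσ.2 u hu]
          exact hu
      obtain ⟨ρ, hρ, hρv⟩ := conj_of_indep h n (insert (w 0) A) _ (fun i => w i.succ) h1
        (hw.2 _ (Finset.coe_insert _ _))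
      refine ⟨σ.trans ρ, hσ.trans (hρ.mono (by simp)), fun i => ?_⟩
      refine Fin.cases ?_ (fun j => ?_) i
      · show ρ (σ (v 0)) = w 0
        rw [hσ0]
        exact hρ.2 _ (by simp)
      · exact hρv j

/-- Quasiminimality of the complex exponential field means that there is a homogeneous closure
operator; it is unique, satisfies exchange if the continuum is larger than `ℵ₁`, and independent
tuples of the same length are conjugate. -/
theorem result :
    ((∀ A : Finset ℂ, ∀ X : Set ℂ, Inv A X → X.Countable ∨ Xᶜ.Countable) ↔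
      ∃ cl : Finset ℂ → Set ℂ, IsHomogeneousClosure cl) ∧
    ((ℵ₁ : Cardinal.{0}) < 𝔠 → ((∀ A : Finset ℂ, ∀ X : Set ℂ, Inv A X → X.Countable ∨ Xᶜ.Countable) ↔
      ∃ cl : Finset ℂ → Set ℂ, IsHomogeneousClosure cl ∧ Exchange cl)) ∧
    ∀ cl : Finset ℂ → Set ℂ, IsHomogeneousClosure cl → cl = ccl ∧
      ∀ (n : ℕ) (A : Finset ℂ) (v w : Fin n → ℂ), Indep cl n A v → Indep cl n A w →
        ∃ σ : ℂ ≃+* ℂ, IsAut A σ ∧ ∀ i, σ (v i) = w i := by
  refine ⟨⟨fun h => ⟨ccl, ccl_homogeneous h⟩, ?_⟩, fun hc => ⟨fun h => ?_, ?_⟩, fun cl h => ?_⟩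
  · rintro ⟨cl, h⟩ A
    exact qm_of_homogeneous h A
  · exact ⟨ccl, ccl_homogeneous h, exchange (ccl_homogeneous h) hc⟩
  · rintro ⟨cl, h, _⟩ A
    exact qm_of_homogeneous h A
  · exact ⟨unique h, conj_of_indep h⟩

end Pool.Agent.Results.MP_a12702_lc.Pregeometry
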